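import Mathlib

set_option autoImplicit false

namespace Pool.Agent.Results.MP_f88521_co.RookBlowUp

/-- Every colouring of the edges of the complete graph on `N` vertices with two colours contains a
monochromatic tree on `n` vertices of diameter at most `d`. -/
def Arrows (n d N : ℕ) : Prop :=
  ∀ c : Sym2 (Fin N) → Bool, ∃ T : SimpleGraph (Fin n), T.IsTree ∧ T.diam ≤ d ∧
    ∃ f : Fin n ↪ Fin N, ∃ b : Bool, ∀ u v, T.Adj u v → c s(f u, f v) = b

/-- A tree of diameter at most three has an edge `u v` such that every vertex is adjacent to `u` or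
to `v`. -/
theorem exists_dominating_edge {V : Type*} [Fintype V] [Nontrivial V] (T : SimpleGraph V)
    (hT : T.IsTree) (hd : T.diam ≤ 3) : ∃ u v, T.Adj u v ∧ ∀ w, T.Adj u w ∨ T.Adj v w := by
  classical
  have hconn := hT.1
  -- the set of edges is nonempty
  obtain ⟨x0, y0, hxy0⟩ : ∃ x y, T.Adj x y := by
    obtain ⟨x, y, hxy⟩ := exists_pair_ne V
    obtain ⟨p⟩ := hconn.preconnected x y
    cases p with
    | nil => exact absurd rfl hxy
    | cons h _ => exact ⟨_, _, h⟩
  obtain ⟨⟨⟨u, v⟩, huv⟩, -, hmax⟩ := Finset.exists_max_image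
    (Finset.univ : Finset {p : V × V // T.Adj p.1 p.2})
    (fun p => (Finset.univ.filter (fun w => T.Adj p.1.1 w ∨ T.Adj p.1.2 w)).card)
    ⟨⟨(x0, y0), hxy0⟩, Finset.mem_univ _⟩
  simp only [Finset.mem_univ, forall_true_left] at hmax
  refine ⟨u, v, huv, ?_⟩
  by_contra hcon
  push Not at hcon
  obtain ⟨w0, hw0u, hw0v⟩ := hcon
  -- a vertex outside adjacent to a vertex inside
  obtain ⟨z, w, hzw, hz, hw⟩ : ∃ z w, T.Adj z w ∧ (T.Adj u z ∨ T.Adj v z) ∧
      ¬ (T.Adj u w ∨ T.Adj v w) := by
    obtain ⟨p⟩ := hconn.preconnected u w0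
    have key : ∀ (a b : V) (p : T.Walk a b), (T.Adj u a ∨ T.Adj v a) →
        ¬ (T.Adj u b ∨ T.Adj v b) → ∃ z w, T.Adj z w ∧ (T.Adj u z ∨ T.Adj v z) ∧
          ¬ (T.Adj u w ∨ T.Adj v w) := by
      intro a b p
      induction p with
      | nil => intro h1 h2; exact absurd h1 h2
      | @cons a b c h q ih =>
        intro h1 h2
        by_cases h3 : T.Adj u b ∨ T.Adj v b
        · exact ih h3 h2
        · exact ⟨a, b, h, h1, h3⟩
    exact key u w0 p (Or.inr huv.symm) (by tauto)
  -- by symmetry `z` is adjacent to `u`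
  have main : ∀ u v : V, T.Adj u v →
      (∀ p : {p : V × V // T.Adj p.1 p.2},
        (Finset.univ.filter (fun w => T.Adj p.1.1 w ∨ T.Adj p.1.2 w)).card ≤
          (Finset.univ.filter (fun w => T.Adj u w ∨ T.Adj v w)).card) →
      T.Adj u z → ¬ (T.Adj u w ∨ T.Adj v w) → False := by
    intro u v huv hmax huz hw
    have h1 := hmax ⟨(u, z), huz⟩
    simp only at h1
    -- there is a vertex in the second set which is not in the first
    obtain ⟨x, hx1, hx2⟩ : ∃ x, (T.Adj u x ∨ T.Adj v x) ∧ ¬ (T.Adj u x ∨ T.Adj z x) := by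
      by_contra hno
      push Not at hno
      have hss : (Finset.univ.filter (fun w => T.Adj u w ∨ T.Adj v w)) ⊂
          (Finset.univ.filter (fun w => T.Adj u w ∨ T.Adj z w)) := by
        rw [Finset.ssubset_iff_of_subset]
        · exact ⟨w, by simp [hzw], by simpa using hw⟩
        · intro x hx
          rw [Finset.mem_filter] at hx ⊢
          exact ⟨hx.1, by
            by_contra h2
            exact h2 (by
              have := hno x hx.2
              tauto)⟩
      exact absurd (Finset.card_lt_card hss) (not_lt.2 h1)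
    have hvx : T.Adj v x := by tauto
    have hux : ¬ T.Adj u x := by tauto
    have hzx : ¬ T.Adj z x := by tauto
    have huw : ¬ T.Adj u w := by tauto
    have hvw : ¬ T.Adj v w := by tauto
    -- the walk x v u z w
    let p : T.Walk x w := .cons hvx.symm (.cons huv.symm (.cons huz (.cons hzw .nil)))
    have hxu : x ≠ u := by rintro rfl; exact hzx huz.symm
    have hxz : x ≠ z := by rintro rfl; exact hux huz
    have hxw : x ≠ w := by rintro rfl; exact hvw hvx
    have hvz : v ≠ z := by rintro rfl; exact hvw hzw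
    have hvw' : v ≠ w := by rintro rfl; exact huw huv
    have huw' : u ≠ w := by rintro rfl; exact hvw huv.symm
    have hp : p.IsPath := by
      simp only [p, SimpleGraph.Walk.cons_isPath_iff, SimpleGraph.Walk.support_cons,
        SimpleGraph.Walk.support_nil, List.mem_cons, List.not_mem_nil, or_false, not_or,
        SimpleGraph.Walk.IsPath.nil, true_and]
      exact ⟨⟨⟨hzw.ne, huz.ne, huw'⟩, huv.ne.symm, hvz, hvw'⟩, hvx.ne.symm, hxu, hxz, hxw⟩
    obtain ⟨q, hq, hql⟩ := hconn.exists_path_of_dist x w
    have heq : (⟨p, hp⟩ : T.Path x w) = ⟨q, hq⟩ := hT.2.path_unique _ _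
    have hlen : p.length = q.length := by
      have := congrArg (fun r : T.Path x w => r.1.length) heq
      simpa using this
    have h4 : T.dist x w = 4 := by
      rw [← hql, ← hlen]
      rfl
    have h5 : T.dist x w ≤ T.diam := by
      apply SimpleGraph.dist_le_diam
      exact SimpleGraph.connected_iff_ediam_ne_top.1 hconn
    omega
  rcases hz with hz | hz
  · exact main u v huv hmax hz hw
  · refine main v u huv.symm ?_ hz (by tauto)
    intro p
    refine (hmax p).trans (le_of_eq ?_)
    congr 1
    ext x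
    simp [or_comm]

/-- Row of a vertex in the three times three board. -/
def row (x : ℕ) : ℕ := (x % 9) / 3

/-- Column of a vertex. -/
def col (x : ℕ) : ℕ := x % 3

/-- The rook colouring. -/
def rook (x y : ℕ) : Bool := decide (row x = row y ∨ col x = col y)

theorem rook_comm (x y : ℕ) : rook x y = rook y x := by
  unfold rook
  simp only [eq_comm]

theorem rook_mod (x y : ℕ) : rook x y = rook (x % 9) (y % 9) := by
  unfold rook row col
  have h1 : x % 9 % 9 = x % 9 := Nat.mod_mod _ _
  have h2 : y % 9 % 9 = y % 9 := Nat.mod_mod _ _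
  have h3 : x % 9 % 3 = x % 3 := Nat.mod_mod_of_dvd _ (by norm_num)
  have h4 : y % 9 % 3 = y % 3 := Nat.mod_mod_of_dvd _ (by norm_num)
  rw [h1, h2, h3, h4]

theorem two_classes : ∀ x < 9, ∀ y < 9, ∃ r < 9, ∃ s < 9, r ≠ s ∧
    rook x r ≠ rook x y ∧ rook y r ≠ rook x y ∧ rook x s ≠ rook x y ∧ rook y s ≠ rook x y := by
  decide +kernel

theorem class_card (N s r : ℕ) (h : 9 * s ≤ N) (hr : r < 9) :
    s ≤ ((Finset.univ : Finset (Fin N)).filter (fun w => w.val % 9 = r)).card := by
  have hinj : Function.Injective (fun i : Fin s => (⟨9 * i.val + r, by omega⟩ : Fin N)) := by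
    intro i j hij
    have : 9 * i.val + r = 9 * j.val + r := congrArg Fin.val hij
    exact Fin.ext (by omega)
  calc s = (Finset.univ : Finset (Fin s)).card := by simp
    _ = ((Finset.univ : Finset (Fin s)).image
        (fun i : Fin s => (⟨9 * i.val + r, by omega⟩ : Fin N))).card := by
      rw [Finset.card_image_of_injective _ hinj]
    _ ≤ _ := by
      apply Finset.card_le_card
      intro w hw
      rw [Finset.mem_image] at hw
      obtain ⟨i, -, rfl⟩ := hw
      simp only [Finset.mem_filter, Finset.mem_univ, true_and]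
      omega

/-- The lower bound. -/
theorem not_arrows (m : ℕ) (hm : 1 ≤ m) : ¬ Arrows (m + 1) 3 (m + 2 * (m / 7)) := by
  classical
  intro h
  set N := m + 2 * (m / 7) with hN
  have h9 : 9 * (m / 7) ≤ N := by omega
  obtain ⟨T, hT, hd, f, b, hb⟩ := h (Sym2.lift ⟨fun x y : Fin N => rook x.val y.val,
    fun x y => rook_comm _ _⟩)
  simp only [Sym2.lift_mk] at hb
  haveI : Nontrivial (Fin (m + 1)) := Fin.nontrivial_iff_two_le.2 (by omega)
  obtain ⟨u, v, huv, hdom⟩ := exists_dominating_edge T hT hd
  have hbuv := hb u v huv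
  obtain ⟨r, hr, s, hs, hrs, h1, h2, h3, h4⟩ := two_classes ((f u).val % 9)
    (Nat.mod_lt _ (by norm_num)) ((f v).val % 9) (Nat.mod_lt _ (by norm_num))
  rw [← rook_mod, hbuv] at h1 h2 h3 h4
  have hA := class_card N (m / 7) r h9 hr
  have hB := class_card N (m / 7) s h9 hs
  set A := (Finset.univ : Finset (Fin N)).filter (fun w => w.val % 9 = r)
  set B := (Finset.univ : Finset (Fin N)).filter (fun w => w.val % 9 = s)
  set C := (Finset.univ : Finset (Fin (m + 1))).map f
  have hAB : Disjoint A B := by
    rw [Finset.disjoint_left]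
    intro w hw hw'
    simp only [A, B, Finset.mem_filter, Finset.mem_univ, true_and] at hw hw'
    omega
  have hC : Disjoint (A ∪ B) C := by
    rw [Finset.disjoint_right]
    intro w hw hw'
    obtain ⟨x, -, rfl⟩ := Finset.mem_map.1 hw
    rw [Finset.mem_union] at hw'
    have hx : rook (f u).val (f x).val = b ∨ rook (f v).val (f x).val = b := by
      rcases hdom x with hx | hx
      · exact Or.inl (hb _ _ hx)
      · exact Or.inr (hb _ _ hx)
    rw [rook_mod (f u).val, rook_mod (f v).val] at hx
    rcases hw' with hw' | hw'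
    · simp only [A, Finset.mem_filter, Finset.mem_univ, true_and] at hw'
      rw [hw'] at hx
      rcases hx with hx | hx
      · exact h1 hx
      · exact h2 hx
    · simp only [B, Finset.mem_filter, Finset.mem_univ, true_and] at hw'
      rw [hw'] at hx
      rcases hx with hx | hx
      · exact h3 hx
      · exact h4 hx
  have hcard : ((A ∪ B) ∪ C).card ≤ N := by
    have := Finset.card_le_univ ((A ∪ B) ∪ C)
    simpa using this
  rw [Finset.card_union_of_disjoint hC, Finset.card_union_of_disjoint hAB] at hcard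
  have hCc : C.card = m + 1 := by simp [C]
  omega

/-- The proposed formula `R(τ_{4k-r+1}(3), 2) = 5 k - r` is false for `k = 2`, `r = 1`, and it is
false for all `k ≥ 20` and all `r ∈ {1, 2, 3, 4}`. -/
theorem result : ∀ k r : ℕ, 1 ≤ r → r ≤ 4 → (k = 2 ∧ r = 1 ∨ 20 ≤ k) →
    ¬ IsLeast {N : ℕ | Arrows (4 * k - r + 1) 3 N} (5 * k - r) := by
  intro k r hr1 hr4 hk hleast
  have hmono : ∀ M N n d : ℕ, M ≤ N → Arrows n d M → Arrows n d N := by
    intro M N n d hMN h c
    obtain ⟨T, hT, hd, f, b, hb⟩ := h (fun e => c (e.map (Fin.castLE hMN)))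
    refine ⟨T, hT, hd, f.trans (Fin.castLEEmb hMN), b, ?_⟩
    intro u v huv
    have := hb u v huv
    simpa using this
  have h1 : Arrows (4 * k - r + 1) 3 (5 * k - r) := hleast.1
  refine not_arrows (4 * k - r) (by omega) (hmono _ _ _ _ ?_ h1)
  omega

end Pool.Agent.Results.MP_f88521_co.RookBlowUp
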